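import Pool.Agent.Lib.MP_23a7d9_al.Final

/-!
# The spectral conjecture of Boyle and Handelman for subrings of the reals other than the integers

A finite list of complex numbers is a `Multiset ℂ`.  A subring `S` of the reals contains `1`.
A matrix is primitive in the sense of `Matrix.IsPrimitive` of Mathlib: all entries are nonnegative
and some power with positive exponent has all entries strictly positive.
-/

namespace Pool.Agent.Results.MP_23a7d9_al.SpectralConjecture

open Polynomial

/-- The trace `tr(Λ^k)`, the sum of the `k`-th powers of the members of the list. -/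
noncomputable def tr (Λ : Multiset ℂ) (k : ℕ) : ℂ := (Λ.map fun z => z ^ k).sum

/-- Perron condition: some member `ρ` of the list is a positive real number, it occurs exactly
once, and every other member has modulus less than `ρ`. -/
def PerronCondition (Λ : Multiset ℂ) : Prop :=
  ∃ ρ : ℝ, 0 < ρ ∧ Λ.count (ρ : ℂ) = 1 ∧ ∀ z ∈ Λ, z ≠ (ρ : ℂ) → ‖z‖ < ρ

/-- Coefficient condition: the product of the `t - λ` is a polynomial over `S`. -/
def CoefficientCondition (S : Subring ℝ) (Λ : Multiset ℂ) : Prop :=
  ∃ q : S[X], q.map ((algebraMap ℝ ℂ).comp S.subtype) = (Λ.map fun z => X - C z).prod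

/-- Trace condition: for every `k ≥ 1`, `tr(Λ^k) ≥ 0`, and if `tr(Λ^k) > 0` then
`tr(Λ^(nk)) > 0` for all `n ≥ 1`.  (Under the coefficient condition the traces are real numbers,
see `tr_im_eq_zero`, so nothing is lost by speaking of their real parts.) -/
def TraceCondition (Λ : Multiset ℂ) : Prop :=
  ∀ k, 1 ≤ k → 0 ≤ (tr Λ k).re ∧ (0 < (tr Λ k).re → ∀ n, 1 ≤ n → 0 < (tr Λ (n * k)).re)

open Classical in
/-- The nonzero spectrum of a real matrix: the multiset of its nonzero complex eigenvalues, each
repeated according to its algebraic multiplicity. -/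
noncomputable def nonzeroSpectrum {n : ℕ} (A : Matrix (Fin n) (Fin n) ℝ) : Multiset ℂ :=
  ((A.map (algebraMap ℝ ℂ)).charpoly.roots).filter fun z => z ≠ 0

/-- Sanity check: under the coefficient condition the traces are real. -/
theorem tr_im_eq_zero {S : Subring ℝ} {Λ : Multiset ℂ} (h : CoefficientCondition S Λ) (k : ℕ) :
    (tr Λ k).im = 0 := by
  obtain ⟨q, hq⟩ := h
  have h1 : (Λ.map (starRingEnd ℂ)) = Λ := by
    have h2 : ((Λ.map fun z => X - C z).prod).map (starRingEnd ℂ) =
        (Λ.map fun z => X - C z).prod := by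
      rw [← hq, Polynomial.map_map]
      congr 1
      ext x
      simp
    have h3 : ((Λ.map fun z => X - C z).prod).map (starRingEnd ℂ) =
        ((Λ.map (starRingEnd ℂ)).map fun z => X - C z).prod := by
      rw [Polynomial.map_multiset_prod, Multiset.map_map, Multiset.map_map]
      congr 1
      refine Multiset.map_congr rfl fun z _ => ?_
      simp
    rw [h3] at h2
    have h4 := congrArg Polynomial.roots h2
    rwa [roots_multiset_prod_X_sub_C, roots_multiset_prod_X_sub_C] at h4
  have h5 : (starRingEnd ℂ) (tr Λ k) = tr Λ k := by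
    conv_rhs => rw [tr, ← h1]
    rw [tr, map_multiset_sum, Multiset.map_map, Multiset.map_map]
    congr 1
    refine Multiset.map_congr rfl fun z _ => ?_
    simp
  exact Complex.conj_eq_iff_im.1 h5

/-- **The spectral conjecture for every subring of the reals other than the integers.** -/
theorem result (S : Subring ℝ) (hS : S ≠ (Int.castRingHom ℝ).range) (Λ : Multiset ℂ)
    (h0 : (0 : ℂ) ∉ Λ) (hP : PerronCondition Λ) (hC : CoefficientCondition S Λ)
    (hT : TraceCondition Λ) :
    ∃ (n : ℕ) (A : Matrix (Fin n) (Fin n) ℝ), (∀ i j, A i j ∈ S) ∧ A.IsPrimitive ∧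
      nonzeroSpectrum A = Λ := by
  classical
  obtain ⟨ρ, hρ, hcount, hlt⟩ := hP
  have hmem : (ρ : ℂ) ∈ Λ := by
    rw [← Multiset.count_pos, hcount]
    exact one_pos
  have hsmall : ∀ z ∈ Λ.erase (ρ : ℂ), ‖z‖ < ρ := by
    intro z hz
    refine hlt z (Multiset.mem_of_mem_erase hz) ?_
    rintro rfl
    have h1 := Multiset.count_pos.2 hz
    rw [Multiset.count_erase_self, hcount] at h1
    exact lt_irrefl _ h1
  obtain ⟨q, hq⟩ := hC
  obtain ⟨n, A, hAS, hprim, k, hk⟩ := Pool.Agent.Lib.MP_23a7d9_al.main_thm hS h0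
    ⟨ρ, hρ, hmem, hsmall⟩ (fun k => ⟨(q.coeff k : ℝ), (q.coeff k).2, by
      rw [Pool.Agent.Lib.MP_23a7d9_al.Q, ← hq, coeff_map]; rfl⟩) hT
  refine ⟨n, A, hAS, hprim, ?_⟩
  rw [nonzeroSpectrum, hk, roots_mul, roots_X_pow, Pool.Agent.Lib.MP_23a7d9_al.Q,
    roots_multiset_prod_X_sub_C, Multiset.filter_add]
  · have h1 : Multiset.filter (fun z : ℂ => z ≠ 0) (k • {0}) = 0 := by
      rw [Multiset.filter_eq_nil]
      intro a ha
      have := Multiset.mem_of_mem_nsmul ha
      rw [Multiset.mem_singleton] at this
      simpa using this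
    have h2 : Multiset.filter (fun z : ℂ => z ≠ 0) Λ = Λ := by
      rw [Multiset.filter_eq_self]
      rintro a ha rfl
      exact h0 ha
    rw [h1, h2, zero_add]
  · refine mul_ne_zero (pow_ne_zero _ X_ne_zero) ?_
    rw [Pool.Agent.Lib.MP_23a7d9_al.Q]
    exact (monic_multiset_prod_of_monic _ _ fun z _ => monic_X_sub_C z).ne_zero

end Pool.Agent.Results.MP_23a7d9_al.SpectralConjecture
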